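import Pool.Agent.Helper61.FN.GoalsC

/-!
# Packet FN-CSG (MP_06d934_gt): the symmetry of the two roots `δ₁ ± δ₂`
-/

set_option autoImplicit false

namespace Pool.Agent.Helper8.FN.CSG

open Finset
open Pool.Agent.Helper61.FN

section

variable {E J F k : Type} [Fintype E] [Fintype J] [Field F] [Field k] [Algebra F k]
  {m m' : J → E → ℤ} {c c' : J → F} {d d' : E → F} {lam : F} {v : E → ℤ} {M : ℤ} {ξ : E → k}

/-- Reindexing: `s` permutes the coordinates and `q` the monomials. -/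
theorem nrm_perm (h : Nrm m c d lam v M ξ) (s : Equiv.Perm E) (q : Equiv.Perm J)
    (hm : ∀ j e, m' j e = m (q j) (s e)) (hc : ∀ j, c' j = c (q j)) (hd : ∀ e, d' e = d (s e)) :
    Nrm m' c' d' lam (fun e ↦ v (s e)) M (fun e ↦ ξ (s e)) := by
  have hgr : ∀ j, gr (m' j) (fun e ↦ v (s e)) = gr (m (q j)) v := by
    intro j
    unfold gr
    rw [← Equiv.sum_comp s (fun e ↦ m (q j) e * v e)]
    exact sum_congr rfl fun e _ ↦ by rw [hm]
  have hpr : ∀ (w : E → F) (j : J), pr (m' j) w = pr (m (q j)) (fun e ↦ w (s.symm e)) := by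
    intro w j
    unfold pr
    rw [← Equiv.sum_comp s (fun e ↦ (m (q j) e : F) * w (s.symm e))]
    exact sum_congr rfl fun e _ ↦ by rw [hm, Equiv.symm_apply_apply]
  have hmon : ∀ j, mon (fun e ↦ ξ (s e)) (m' j) = mon ξ (m (q j)) := by
    intro j
    unfold mon
    rw [← Equiv.prod_comp s (fun e ↦ ξ e ^ m (q j) e)]
    exact prod_congr rfl fun e _ ↦ by rw [hm]
  have hds : ∑ e, d' e = ∑ e, d e := by
    rw [← Equiv.sum_comp s d]
    exact sum_congr rfl fun e _ ↦ hd e
  refine ⟨fun e ↦ h.ne _, h.lam_ne, h.M_pos, fun j ↦ ?_, ?_, ?_, ?_⟩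
  · rw [hgr]
    exact h.le _
  · obtain ⟨j, hj⟩ := h.ex
    refine ⟨q.symm j, ?_⟩
    rw [hgr, Equiv.apply_symm_apply]
    exact hj
  · rw [hds, ← h.sum, ← Equiv.sum_comp s (fun e ↦ d e * (v e : F))]
    exact sum_congr rfl fun e _ ↦ by rw [hd]
  · intro w g hg hj
    have h1 := h.lead (fun e ↦ w (s.symm e)) g hg (fun j hj' ↦ by
      have h2 := hj (q.symm j)
      rw [hc, hpr, hgr, Equiv.apply_symm_apply] at h2
      exact h2 hj')
    have h3 : ∑ e, d' e * w e = ∑ e, d e * w (s.symm e) := by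
      rw [← Equiv.sum_comp s (fun e ↦ d e * w (s.symm e))]
      exact sum_congr rfl fun e _ ↦ by rw [hd, Equiv.symm_apply_apply]
    rw [h3, ← h1, ← Equiv.sum_comp q (fun j ↦ if M + gr (m j) v = g then
      algebraMap F k (c j * pr (m j) (fun e ↦ w (s.symm e))) * mon ξ (m j) else 0)]
    exact sum_congr rfl fun j _ ↦ by rw [hgr, hc, hpr, hmon]

end

/-- The permutation of the monomials. -/
def qC : Fin 20 → Fin 20 := ![1, 0, 2, 3, 4, 5, 9, 10, 11, 6, 7, 8, 12, 13, 14, 16, 15, 17, 19, 18]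

theorem qC_inv : Function.Involutive qC := by
  intro j
  revert j
  decide

theorem sg_inv : Function.Involutive sg := by
  intro e
  revert e
  decide

theorem goalCSG : G_CSG := by
  intro F k _ _ _ _ _ p q mu ep lam v M ξ h
  refine ⟨h.par, nrm_perm h.nrm sg_inv.toPerm qC_inv.toPerm ?_ ?_ ?_⟩
  · intro j e
    change mC j e = mC (qC j) (sg e)
    revert j e
    decide
  · intro j
    change cC p q mu ep j = cC p q mu ep (qC j)
    fin_cases j <;> rfl
  · intro e
    change dC p q mu ep e = dC p q mu ep (sg e)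
    fin_cases e <;> rfl

end Pool.Agent.Helper8.FN.CSG
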